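import Pool.Agent.E8helper17.CND.S

/-! CND piece OS: one system of chords. -/

namespace H17CND.H80OS

open Classical in
/-- the index of a vertex in the cyclic order -/
noncomputable def idx {V : Type} (N : ℕ) (φ : ℕ → V) (v : V) : ℕ :=
  if h : ∃ i, i < N ∧ φ i = v then h.choose else 0

theorem idx_eq {V : Type} {G : SimpleGraph V} {N : ℕ} {φ : ℕ → V} (h : CycOrd G N φ) {i : ℕ}
    (hi : i < N) : idx N φ (φ i) = i := by
  have h1 : ∃ j, j < N ∧ φ j = φ i := ⟨i, hi, rfl⟩
  unfold idx
  rw [dif_pos h1]
  exact h.inj _ h1.choose_spec.1 _ hi h1.choose_spec.2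

theorem CycOrd.mono {V : Type} {G G' : SimpleGraph V} {N : ℕ} {φ : ℕ → V} (h : CycOrd G N φ)
    (hG : G ≤ G') : CycOrd G' N φ :=
  ⟨h.inj, fun i hi => hG (h.adj i hi), hG h.close⟩

open Classical in
theorem OS (hF : S_FLOW) (hS : S_SEED) (hR : S_ROT) : S_OS := by
  intro V _ G g D K N φ hg hD hK hN hc
  have hD3 : (D + 3) ^ g ≤ K := le_trans (Nat.pow_le_pow_left (by omega) g) hK
  have hwin : ∀ k, k < K + 1 → 1 + (k + 1) * (K + 1) ≤ (K + 1) ^ 2 + 1 := by
    intro k hk
    have h1 : (k + 1) * (K + 1) ≤ (K + 1) * (K + 1) := Nat.mul_le_mul_right _ hk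
    rw [pow_two]
    omega
  -- the seeds
  obtain ⟨b, G1, hG1, hg1, hD1, hb, hb0, hbs⟩ := hS V G g D (K + 1) hg hD (φ (N - 1))
    (fun v => φ (idx N φ v - 1))
    (fun k => (Finset.Ico (1 + k * (K + 1)) (1 + (k + 1) * (K + 1))).image φ)
    (by
      intro k hk l hl u hu w hw huw
      rw [Finset.mem_image] at hu hw
      obtain ⟨i, hi, rfl⟩ := hu
      obtain ⟨j, hj, rfl⟩ := hw
      rw [Finset.mem_Ico] at hi hj
      have h1 := hwin k hk
      have h2 := hwin l hl
      have hi0 : 1 ≤ i := by omega
      have hj0 : 1 ≤ j := by omega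
      have hiN : i < N := by omega
      have hjN : j < N := by omega
      try dsimp only at huw
      rw [idx_eq hc hiN, idx_eq hc hjN] at huw
      have h3 := hc.inj _ (by omega) _ (by omega) huw
      have h4 : i = j := by omega
      rw [h4])
    (by
      intro k hk u hu huw
      rw [Finset.mem_image] at hu
      obtain ⟨i, hi, rfl⟩ := hu
      rw [Finset.mem_Ico] at hi
      have h1 := hwin k hk
      have hi0 : 1 ≤ i := by omega
      have hiN : i < N := by omega
      try dsimp only at huw
      rw [idx_eq hc hiN] at huw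
      have h3 := hc.inj _ (by omega) _ (by omega) huw
      omega)
    (by
      intro k hk l hl hkl
      rw [Finset.disjoint_left]
      intro u hu hw
      rw [Finset.mem_image] at hu hw
      obtain ⟨i, hi, rfl⟩ := hu
      obtain ⟨j, hj, hij⟩ := hw
      rw [Finset.mem_Ico] at hi hj
      have h1 := hwin k hk
      have h2 := hwin l hl
      have h3 := hc.inj _ (by omega) _ (by omega) hij
      subst h3
      rcases lt_or_gt_of_ne hkl with h4 | h4
      · have : (k + 1) * (K + 1) ≤ l * (K + 1) := Nat.mul_le_mul_right _ h4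
        omega
      · have : (l + 1) * (K + 1) ≤ k * (K + 1) := Nat.mul_le_mul_right _ h4
        omega)
    (by
      intro k hk
      rw [Finset.card_image_of_injOn, Nat.card_Ico]
      · have : (k + 1) * (K + 1) = k * (K + 1) + (K + 1) := by ring
        omega
      · intro i hi j hj hij
        rw [Finset.mem_coe, Finset.mem_Ico] at hi hj
        have h1 := hwin k hk
        exact hc.inj _ (by omega) _ (by omega) hij)
  obtain ⟨s, hs⟩ : ∃ s : ℕ → ℕ, s = fun k => idx N φ (b k) := ⟨_, rfl⟩
  have hsb : ∀ k, k < K + 1 → 1 + k * (K + 1) ≤ s k ∧ s k < 1 + (k + 1) * (K + 1) ∧ φ (s k) = b k := by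
    intro k hk
    have h1 := hb k hk
    rw [Finset.mem_image] at h1
    obtain ⟨i, hi, hib⟩ := h1
    rw [Finset.mem_Ico] at hi
    have h2 := hwin k hk
    have h3 : s k = i := by
      rw [hs]
      dsimp only
      rw [← hib]
      exact idx_eq hc (by omega)
    rw [h3]
    exact ⟨hi.1, hi.2, hib⟩
  have hsN : ∀ k, k < K + 1 → 1 ≤ s k ∧ s k < (K + 1) ^ 2 + 1 := by
    intro k hk
    have h1 := hsb k hk
    have h2 := hwin k hk
    omega
  have hslt : ∀ k l, k < l → l < K + 1 → s k < s l := by
    intro k l hkl hl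
    have h1 := hsb k (by omega)
    have h2 := hsb l hl
    have h3 : (k + 1) * (K + 1) ≤ l * (K + 1) := Nat.mul_le_mul_right _ hkl
    omega
  -- the other chords
  obtain ⟨L, hL⟩ : ∃ L, L = (K + 1) ^ 2 + 1 := ⟨_, rfl⟩
  obtain ⟨b', G', hG', hg', hD', hb', hab'⟩ := hF V G1 g (D + 2) (N - 1 - L) hg1 hD1
    (fun k => φ (L + k))
    (fun k => ((Finset.range (K + 1)).image s ∪ Finset.Ico L (L + k)).image (fun p => φ (p - 1)))
    (by
      intro k hk l hl hkl
      have := hc.inj _ (by omega) _ (by omega) hkl
      omega)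
    (by
      intro k hk
      rw [Finset.card_image_of_injOn, Finset.card_union_of_disjoint, Finset.card_image_of_injOn,
        Finset.card_range, Nat.card_Ico]
      · have e : D + 2 + 3 = D + 5 := rfl
        rw [e]
        omega
      · intro i hi j hj hij
        rw [Finset.mem_coe, Finset.mem_range] at hi hj
        rcases lt_trichotomy i j with h | h | h
        · have := hslt i j h hj
          try dsimp only at hij
          omega
        · exact h
        · have := hslt j i h hi
          try dsimp only at hij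
          omega
      · rw [Finset.disjoint_left]
        intro p hp hp'
        rw [Finset.mem_image] at hp
        obtain ⟨i, hi, rfl⟩ := hp
        rw [Finset.mem_range] at hi
        rw [Finset.mem_Ico] at hp'
        have := hsN i hi
        omega
      · have hp0 : ∀ p ∈ ((Finset.range (K + 1)).image s ∪ Finset.Ico L (L + k)), 1 ≤ p ∧ p < N := by
          intro p hp
          rw [Finset.mem_union, Finset.mem_image, Finset.mem_Ico] at hp
          rcases hp with ⟨i, hi, rfl⟩ | hp
          · rw [Finset.mem_range] at hi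
            have := hsN i hi
            omega
          · omega
        intro p hp q hq hpq
        have h1 := hp0 p (by exact_mod_cast hp)
        have h2 := hp0 q (by exact_mod_cast hq)
        have := hc.inj _ (by omega) _ (by omega) hpq
        omega)
  have hcy : CycOrd G' N φ := CycOrd.mono hc (hG1.trans hG')
  refine ⟨G', hG1.trans hG', hg', hD', ?_⟩
  intro j hj hjN
  have key := hR V G' N φ hcy {x | (∃ k, k < K + 1 ∧ x = s k) ∨ (L ≤ x ∧ x + 1 < N)} (by
    intro x hx
    rcases hx with ⟨k, hk, rfl⟩ | ⟨hx1, hx2⟩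
    · have h1 := hsN k hk
      have h2 := hsb k hk
      refine ⟨h1.1, by omega, ?_⟩
      rcases Nat.eq_zero_or_pos k with h0 | h0
      · left
        subst h0
        rw [h2.2.2]
        exact hG' (hb0 hk).symm
      · right
        obtain ⟨k', rfl⟩ : ∃ k', k = k' + 1 := ⟨k - 1, by omega⟩
        have h3 := hsN k' (by omega)
        refine ⟨s k', Or.inl ⟨k', by omega, rfl⟩, h3.1, hslt k' (k' + 1) (by omega) hk, ?_⟩
        rw [h2.2.2]
        have h4 := hbs k' hk
        have h5 : s k' = idx N φ (b k') := by rw [hs]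
        rw [h5]
        exact hG' h4.symm
    · refine ⟨by omega, hx2, Or.inr ?_⟩
      have hk : x - L < N - 1 - L := by omega
      have h1 := hab' (x - L) hk
      have h2 := hb' (x - L) hk
      have h3 : L + (x - L) = x := by omega
      rw [Finset.mem_image] at h2
      obtain ⟨p, hp, hpb⟩ := h2
      try dsimp only at h1
      rw [h3] at h1
      rw [Finset.mem_union, Finset.mem_image, Finset.mem_Ico] at hp
      rcases hp with ⟨i, hi, rfl⟩ | hp
      · rw [Finset.mem_range] at hi
        have h4 := hsN i hi
        refine ⟨s i, Or.inl ⟨i, hi, rfl⟩, h4.1, by omega, ?_⟩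
        rw [hpb]
        exact h1
      · refine ⟨p, Or.inr ⟨hp.1, by omega⟩, by omega, by omega, ?_⟩
        rw [hpb]
        exact h1) (j - 1) (Or.inr ⟨by omega, by omega⟩)
  have e : j - 1 + 1 = j := by omega
  rw [e] at key
  exact key

end H17CND.H80OS
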